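import Pool.Agent.H70.SG.Two

/-!
# Spectral inclusion and growth: the exact order of the failure for amenable coverings

The spectral inclusion `σ(H₂) ⊆ σ(H₁)` is known if the covering graph `Γ₁` has subexponential growth, that is, if
`liminf |B_n(v)|^(1/n) = 1`; such graphs are amenable.  That amenability alone does not suffice is known from the
library, by the 3-regular tree with a half line at every vertex, for which `liminf |B_n(v)|^(1/n) = 2`.

**(I) The condition on the growth is sharp.**  There are amenable `Γ₁` with all degrees at most `4`, for which the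
inclusion fails for the adjacency operators and for which the growth rate, uniformly in the centre of the balls, is as
close to `1` as one likes, while `Γ₂` has linear growth (for finite `Γ₂` the inclusion holds, as `Γ₁` is amenable).
For these graphs, with growth rate at most `4^(1/m)`, the number `‖H₂‖ = 10/3` of `σ(H₂)` exceeds `‖H₁‖` by an amount
between `1/(1100 m²)` and `2/m²`.

**(II) For small growth the inclusion is almost true.**  If `Γ₁`, amenable or not, has the growth rate `ω`, and if the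
Laplace type operators are self-adjoint (arbitrary weights), then
(a) `‖q(H₂)‖ ≤ ω^(deg q / 2) ‖q(H₁)‖` for all real polynomials `q`,
(b) `‖H₂‖ ≤ (√ω + 1/√ω)/2 · ‖H₁‖` (an equality for the regular tree as covering of a finite regular graph),
(c) every point of `σ(H₂)` has a distance at most `(‖H₁‖ + ‖H₂‖) √(1 - 1/ω)` from `σ(H₁)`.

By (I) and (II)(b) the largest possible value of `‖H₂‖ - ‖H₁‖`, for amenable coverings with a given growth rate `ω`
near `1` and bounded degrees and weights, is of the exact order `(log ω)²`.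

Proof of (I).  The graph `Γ₂` is a circle of length `3 m` with a loop and a half line at every vertex.  `Γ₁` consists of
a copy of the circle with its half lines for every vertex `w` of the 3-regular tree, with the loops at all places but
`0`, `m`, `2 m`; the loops at these three places are replaced by the three tree edges at `w`.  The half lines make `Γ₁`
amenable.  The function `3^(-n)` (`n` the distance to the circle) is an eigenfunction of `H₂` with the eigenvalue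
`3 + 1/3`, and `‖H₁‖ ≤ κ + 1/κ < 3 + 1/3` with `κ = 3 - 1/(100 N²)`, `N = 3 m`, by a Schur test with the weights
`100 N² - 8 N min(x, m, N - x) + x (N - x)` on every circle, `x` the distance to the place of the tree edge which
leads to the root of the tree, and a jump by the factor `1 + 13/(100 N)` along the tree edges.
To go along `k` edges of the tree one needs `(k - 1) m` steps on the circles.

Proof of (II).  `⟨δ_x, p(H₂) δ_x⟩` is the value at a point `v` above `x` of `p(H₁)` applied to the indicator function of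
the points above `x` in the ball `B_(deg p)(v)`, so it is at most `‖p(H₁)‖ |B_(deg p)(v)|^(1/2)`.  For `p = q^(2n)` this
bounds `‖q(H₂)^n δ_x‖`, and (a) follows by the log-convexity of `n ↦ ‖q(H₂)^n u‖`.  (b) is (a) for the Chebyshev
polynomials, (c) is (a) for `q(x) = 1 - (x - λ)² / L²`.
-/

set_option autoImplicit false

namespace Pool.Agent.Results.MP_5b767b_an.SlowGrowth

open Pool.Agent.H751R3 Pool.Agent.H751R3.Dart Pool.Agent.H70.SG Polynomial

variable {V E V₁ E₁ V₂ E₂ : Type}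

/-- All weights are `1`. -/
def unitWeights : V → E → ℂ := fun _ _ => 1

/-- All degrees are at most `d`. -/
def DegreesAtMost (Γ : Gr V E) (d : ℕ) : Prop := ∀ v, (Γ.star v).encard ≤ d

/-- `|B_n(v)| ≤ b(n)` for all vertices `v` and all `n`. -/
def BallsAtMost (Γ : Gr V E) (b : ℕ → ℕ) : Prop := ∀ v n, (Γ.nball v n).Finite ∧ (Γ.nball v n).ncard ≤ b n

/-- `Γ₁` is amenable and connected and covers `Γ₂`, all degrees are at most `4`, and `H₁`, `H₂` are the Laplace type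
operators for the weights `1`, that is, the adjacency operators. -/
structure Adjacency4 (Γ₁ : Gr V₁ E₁) (Γ₂ : Gr V₂ E₂) (H₁ : Op V₁) (H₂ : Op V₂) : Prop where
  amenableCovering : AmenableCovering Γ₁ unitWeights Γ₂ unitWeights
  laplace₁ : IsLaplaceType Γ₁ unitWeights H₁
  laplace₂ : IsLaplaceType Γ₂ unitWeights H₂
  degrees₁ : DegreesAtMost Γ₁ 4
  degrees₂ : DegreesAtMost Γ₂ 4

/-- `10/3 - 2/m² ≤ ‖H₁‖ ≤ 10/3 - 1/(1100 m²)` and `‖H₂‖ = 10/3`. -/
def Norms (m : ℕ) (H₁ : Op V₁) (H₂ : Op V₂) : Prop :=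
  10 / 3 - 2 / (m : ℝ) ^ 2 ≤ ‖H₁‖ ∧ ‖H₁‖ ≤ 10 / 3 - 1 / (1100 * (m : ℝ) ^ 2) ∧ ‖H₂‖ = 10 / 3

/-- The weighted graph `(Γ₁, α₁)` covers `(Γ₂, α₂)`, both are uniformly bounded, and the Laplace type operators `H₁`,
`H₂` are self-adjoint. -/
structure SelfAdjointCovering (Γ₁ : Gr V₁ E₁) (α₁ : V₁ → E₁ → ℂ) (Γ₂ : Gr V₂ E₂)
    (α₂ : V₂ → E₂ → ℂ) (H₁ : Op V₁) (H₂ : Op V₂) : Prop where
  nonempty : Nonempty V₁
  bounded₁ : UniformlyBounded Γ₁ α₁
  bounded₂ : UniformlyBounded Γ₂ α₂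
  covers : ∃ (φ : V₁ → V₂) (ψ : E₁ → E₂), IsCovering Γ₁ α₁ Γ₂ α₂ φ ψ
  laplace₁ : IsLaplaceType Γ₁ α₁ H₁
  laplace₂ : IsLaplaceType Γ₂ α₂ H₂
  selfAdjoint₁ : IsSelfAdjoint H₁
  selfAdjoint₂ : IsSelfAdjoint H₂

/-- `|B_n(v)| ≤ C(v) ω^n` for all vertices `v` and all `n`. -/
def GrowthAtMost (Γ : Gr V E) (ω : ℝ) : Prop := ∀ v, ∃ C : ℝ, ∀ n : ℕ, ((Γ.nball v n).ncard : ℝ) ≤ C * ω ^ n

/-- `T = q(H)`, for a real polynomial `q = ∑ q_i x^i`: `T f = ∑ q_i H^i f` for all `f`. -/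
def IsPolynomialOf (T H : Op V) (q : ℝ[X]) : Prop :=
  ∀ f : H2 V, T f = ∑ i ∈ Finset.range (q.natDegree + 1), ((q.coeff i : ℝ) : ℂ) • (H^[i] f)

/-- (a) `‖q(H₂)‖ ≤ ω^(deg q / 2) ‖q(H₁)‖` for all real polynomials `q`. -/
def PolynomialBound (H₁ : Op V₁) (H₂ : Op V₂) (ω : ℝ) : Prop :=
  ∀ q : ℝ[X], ∃ (T₁ : Op V₁) (T₂ : Op V₂), IsPolynomialOf T₁ H₁ q ∧ IsPolynomialOf T₂ H₂ q ∧
    ‖T₂‖ ≤ Real.sqrt ω ^ q.natDegree * ‖T₁‖

theorem pow_eq_iterate (H : Op V) (i : ℕ) (f : H2 V) : (H ^ i) f = H^[i] f := by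
  induction i generalizing f with
  | zero => rfl
  | succ i ih => rw [pow_succ, Function.iterate_succ_apply, ← ih]; rfl

theorem isPolynomialOf_aeval (H : Op V) (q : ℝ[X]) : IsPolynomialOf (aeval H (q.map (algebraMap ℝ ℂ))) H q := by
  intro f
  rw [aeval_eq_sum_range, natDegree_map, sum_apply]
  refine Finset.sum_congr rfl fun i _ => ?_
  rw [coeff_map, smul_apply, pow_eq_iterate]
  rfl

/-- (b) `‖H₂‖ ≤ (√ω + 1/√ω)/2 · ‖H₁‖`. -/
def NormBound (H₁ : Op V₁) (H₂ : Op V₂) (ω : ℝ) : Prop :=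
  ‖H₂‖ ≤ (Real.sqrt ω + (Real.sqrt ω)⁻¹) / 2 * ‖H₁‖

/-- (c) Every point of `σ(H₂)` has a distance at most `(‖H₁‖ + ‖H₂‖) √(1 - 1/ω)` from `σ(H₁)`. -/
def SpectraNear (H₁ : Op V₁) (H₂ : Op V₂) (ω : ℝ) : Prop :=
  ∀ lam ∈ spec H₂, ∃ μ ∈ spec H₁, ‖lam - μ‖ ≤ (‖H₁‖ + ‖H₂‖) * Real.sqrt (1 - ω⁻¹)

/-- **Spectral inclusion and growth.**

(I) For every `m ≥ 1` there are graphs `Γ₁`, `Γ₂` with degrees at most `4`, `Γ₁` amenable and connected and covering
`Γ₂`, such that, with all weights equal to `1` (adjacency operators `H₁`, `H₂`),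
* `|B_n(v)| ≤ 14 m (n + 1) 4^⌊n/m⌋` for all vertices `v` of `Γ₁` and all `n`;
* `|B_n(v)| ≤ 5 m (n + 1)` for all vertices `v` of `Γ₂` and all `n`;
* `10/3 - 2/m² ≤ ‖H₁‖ ≤ 10/3 - 1/(1100 m²)`, `‖H₂‖ = 10/3`, `10/3 ∈ σ(H₂)`, `10/3 ∉ σ(H₁)`.

(II) Let the weighted graph `(Γ₁, α₁)` cover `(Γ₂, α₂)`, both uniformly bounded, with self-adjoint Laplace type
operators `H₁`, `H₂`, and let `|B_n(v)| ≤ C(v) ω^n` for all vertices `v` of `Γ₁` and all `n`, `ω ≥ 1`.  Then (a), (b),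
(c) hold. -/
theorem result :
    (∀ m : ℕ, 0 < m →
      ∃ (V₁ E₁ V₂ E₂ : Type) (Γ₁ : Gr V₁ E₁) (Γ₂ : Gr V₂ E₂) (H₁ : Op V₁) (H₂ : Op V₂),
        Adjacency4 Γ₁ Γ₂ H₁ H₂ ∧ BallsAtMost Γ₁ (fun n => 14 * m * (n + 1) * 4 ^ (n / m)) ∧
        BallsAtMost Γ₂ (fun n => 5 * m * (n + 1)) ∧ Norms m H₁ H₂ ∧ (10 / 3 : ℂ) ∈ spec H₂ ∧ (10 / 3 : ℂ) ∉ spec H₁) ∧
    (∀ (V₁ E₁ V₂ E₂ : Type) (Γ₁ : Gr V₁ E₁) (α₁ : V₁ → E₁ → ℂ) (Γ₂ : Gr V₂ E₂) (α₂ : V₂ → E₂ → ℂ) (H₁ : Op V₁)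
      (H₂ : Op V₂) (ω : ℝ), SelfAdjointCovering Γ₁ α₁ Γ₂ α₂ H₁ H₂ → 1 ≤ ω → GrowthAtMost Γ₁ ω →
      PolynomialBound H₁ H₂ ω ∧ NormBound H₁ H₂ ω ∧ SpectraNear H₁ H₂ ω) := by
  constructor
  · intro m hm
    have : NeZero (3 * m) := ⟨by omega⟩
    have hub : ∀ {Y E : Type} (Γ : Gr Y E), (∀ v, (Γ.star v).encard ≤ 4) → UniformlyBounded Γ (fun _ _ => 1) :=
      fun Γ h => ⟨⟨4, h⟩, 1, fun v e _ => by simp⟩
    have hd1 : ∀ v, ((C1 m).deco.star v).encard ≤ 4 := fun v => (desc1 hm).degree v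
    have hd2 : ∀ v, ((C2 m).deco.star v).encard ≤ 4 := fun v => (desc2 hm).degree v
    have hnorm := norm1 hm
    refine ⟨_, _, _, _, (C1 m).deco, (C2 m).deco, (DD1 m).sys.op, (DD2 m).sys.op,
      ⟨⟨amenable_deco (desc1 hm) (connected1 hm), connected_deco (connected1 hm), hub _ hd1, hub _ hd2, _, _,
        covering_deco (desc1 hm) (desc2 hm) (fun x => ⟨(e0, x), rfl⟩) (psi_surj m) (psi_ends m) (psi_ed m)⟩,
      laplace_of_sys _ _ _ (desc1 hm).bij' (desc1 hm).ends', laplace_of_sys _ _ _ (desc2 hm).bij' (desc2 hm).ends',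
      hd1, hd2⟩, growth1 hm, growth2 hm, ⟨lower1 hm, hnorm, norm2 hm⟩, ?_, notMem_of_norm _ ?_⟩
    · rw [mem_spec_iff]
      have h := mem_deco (DD2 m) 3 (by simp) (by norm_num)
      have e : (((3 : ℕ) : ℂ) + ((3 : ℕ) : ℂ)⁻¹) = 10 / 3 := by norm_num
      rwa [e] at h
    · have e : ‖(10 / 3 : ℂ)‖ = 10 / 3 := by
        rw [norm_div]
        norm_num
      have hm' : (0 : ℝ) < m := by exact_mod_cast hm
      have h1 : 0 < 1 / (1100 * (m : ℝ) ^ 2) := by positivity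
      rw [e]
      linarith
  · intro V₁ E₁ V₂ E₂ Γ₁ α₁ Γ₂ α₂ H₁ H₂ ω hS hω hg
    obtain ⟨hne, hu₁, hu₂, ⟨φ, ψ, hcov⟩, hL₁, hL₂, hs₁, hs₂⟩ := hS
    have hb₁ := star_finite hu₁
    have hb₂ := star_finite hu₂
    have hτ : 1 ≤ Real.sqrt ω := by rwa [Real.one_le_sqrt]
    have hsq : Real.sqrt ω ^ 2 = ω := Real.sq_sqrt (by linarith)
    have hg' : ∀ v, ∃ C : ℝ, ∀ n, (Γ₁.nball v n).Finite ∧
        ((Γ₁.nball v n).ncard : ℝ) ≤ C * (Real.sqrt ω ^ 2) ^ n := by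
      intro v
      obtain ⟨C, hC⟩ := hg v
      exact ⟨C, fun n => ⟨nball_finite hb₁ v n, by rw [hsq]; exact hC n⟩⟩
    refine ⟨fun q => ⟨_, _, isPolynomialOf_aeval H₁ q, isPolynomialOf_aeval H₂ q,
        poly_bound_real hcov hb₁ hb₂ hL₁ hL₂ hs₂ hτ hg' q le_rfl⟩,
      cosh_bound hcov hb₁ hb₂ hL₁ hL₂ hs₁ hs₂ hτ hg', fun lam hlam => ?_⟩
    have h := near_spectrum hcov hb₁ hb₂ hL₁ hL₂ hs₁ hs₂ hτ hg' lam hlam
    rwa [hsq] at h

end Pool.Agent.Results.MP_5b767b_an.SlowGrowth
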